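import Pool.Agent.N442.K4.Loc

/-!
# Two configurations of classes

A triple of classes of which the first is isolated, and an oriented 4-cycle of classes with a missing
triple.
-/

set_option autoImplicit false

open Finset
open scoped Classical

namespace Pool.Agent.N442.K4

open Pool.Agent.N442.LP

/-- all triples with two points in `x` and one in `y`, and none with one point in `x` and two in
`y`, are edges -/
def Arrow {n s : ℕ} (G : Finset (Finset (Fin n))) (x y : Fin s → Fin n) : Prop :=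
  (∀ p q r, p ≠ q → ({x p, x q, y r} : Finset (Fin n)) ∈ G) ∧
    ∀ p q r, q ≠ r → ({x p, y q, y r} : Finset (Fin n)) ∉ G

/-- no triple which meets both `x` and `y`, and no other class, is an edge -/
def Apart {n s : ℕ} (G : Finset (Finset (Fin n))) (x y : Fin s → Fin n) : Prop :=
  (∀ p q r, p ≠ q → ({x p, x q, y r} : Finset (Fin n)) ∉ G) ∧
    ∀ p q r, q ≠ r → ({x p, y q, y r} : Finset (Fin n)) ∉ G

/-- three classes, the first one isolated, with all triples -/
def Bad3 (s : ℕ) {n : ℕ} (G : Finset (Finset (Fin n))) (f : Fin 3 × Fin s → Fin n) : Prop :=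
  Function.Injective f ∧ Apart G (fun p => f (0, p)) (fun p => f (1, p)) ∧
    Apart G (fun p => f (0, p)) (fun p => f (2, p)) ∧
    ∀ p q r, ({f (0, p), f (1, q), f (2, r)} : Finset (Fin n)) ∈ G

/-- a 4-cycle of classes with a missing triple -/
def Bad4 (s : ℕ) {n : ℕ} (G : Finset (Finset (Fin n))) (f : Fin 4 × Fin s → Fin n) : Prop :=
  Function.Injective f ∧ Arrow G (fun p => f (0, p)) (fun p => f (1, p)) ∧
    Arrow G (fun p => f (1, p)) (fun p => f (2, p)) ∧
    Arrow G (fun p => f (2, p)) (fun p => f (3, p)) ∧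
    Arrow G (fun p => f (3, p)) (fun p => f (0, p)) ∧
    Apart G (fun p => f (0, p)) (fun p => f (2, p)) ∧
    Apart G (fun p => f (1, p)) (fun p => f (3, p)) ∧
    ∀ p q r, ({f (0, p), f (1, q), f (2, r)} : Finset (Fin n)) ∉ G

/-- the points `y a p` contain a configuration -/
def HasP {β : Type} {n : ℕ} (Φ : (β → Fin n) → Prop) {k t : ℕ} (y : Fin k → Fin t → Fin n) : Prop :=
  ∃ e : β → Fin k × Fin t, Function.Injective e ∧ Φ (fun b => y (e b).1 (e b).2)

theorem HasP.comp {β : Type} {n : ℕ} {Φ : (β → Fin n) → Prop} {k t T : ℕ}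
    {y : Fin k → Fin T → Fin n} {z : Fin k → Fin t → Fin T} (hz : ∀ i, Function.Injective (z i))
    (h : HasP Φ (fun i a => y i (z i a))) : HasP Φ y := by
  obtain ⟨e, he, hc⟩ := h
  refine ⟨fun o => ((e o).1, z (e o).1 (e o).2), ?_, hc⟩
  intro a b hab
  simp only [Prod.mk.injEq] at hab
  apply he
  have h1 : (e a).1 = (e b).1 := hab.1
  have h2 := hab.2
  rw [← h1] at h2
  exact Prod.ext h1 (hz _ h2)

/-- the number of configurations -/
noncomputable def num {β : Type} [Fintype β] {n : ℕ} (Φ : (β → Fin n) → Prop) : ℕ :=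
  ((univ : Finset (β → Fin n)).filter Φ).card

theorem count_gen {β : Type} [Fintype β] (k T n : ℕ) (Φ : (β → Fin n) → Prop) :
    ((univ : Finset (Fin k → Fin T → Fin n)).filter (HasP Φ)).card ≤
      (k * T) ^ (Fintype.card β) * (num Φ * n ^ (k * T - Fintype.card β)) := by
  rw [curry_card]
  set E : Finset (β → Fin k × Fin T) := univ.filter Function.Injective with hE
  set t : Finset (β → Fin n) := univ.filter Φ with ht
  have h1 : (((univ : Finset (Fin k → Fin T → Fin n)).filter (HasP Φ)).image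
      (fun y => fun p : Fin k × Fin T => y p.1 p.2)) ⊆
      E.biUnion fun e => univ.filter fun w : Fin k × Fin T → Fin n => w ∘ e ∈ t := by
    intro w hw
    obtain ⟨y, hy, rfl⟩ := mem_image.mp hw
    obtain ⟨e, he, hc⟩ := (mem_filter.mp hy).2
    rw [mem_biUnion]
    refine ⟨e, mem_filter.mpr ⟨mem_univ _, he⟩, mem_filter.mpr ⟨mem_univ _, ?_⟩⟩
    exact mem_filter.mpr ⟨mem_univ _, hc⟩
  refine (card_le_card h1).trans (card_biUnion_le.trans ?_)
  have h2 : ∀ e ∈ E, (univ.filter fun w : Fin k × Fin T → Fin n => w ∘ e ∈ t).card ≤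
      num Φ * n ^ (k * T - Fintype.card β) := by
    intro e he
    have h3 := pull_le (V := Fin n) e (mem_filter.mp he).2
      (univ.filter fun w : Fin k × Fin T → Fin n => w ∘ e ∈ t) t
      (fun w hw => (mem_filter.mp hw).2)
    rw [Fintype.card_prod, Fintype.card_fin, Fintype.card_fin, Fintype.card_fin] at h3
    exact h3
  refine (sum_le_sum h2).trans ?_
  rw [sum_const, smul_eq_mul]
  refine Nat.mul_le_mul_right _ ?_
  have h4 : E.card ≤ (univ : Finset (β → Fin k × Fin T)).card := card_le_card (filter_subset _ _)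
  refine h4.trans (le_of_eq ?_)
  rw [card_univ, Fintype.card_fun, Fintype.card_prod, Fintype.card_fin, Fintype.card_fin]

/-- the density of the configurations -/
noncomputable def dn (β : Type) [Fintype β] {n : ℕ} (Φ : (β → Fin n) → Prop) : ℝ :=
  (num Φ : ℝ) / (n : ℝ) ^ (Fintype.card β)

theorem dn_nonneg (β : Type) [Fintype β] {n : ℕ} (Φ : (β → Fin n) → Prop) : 0 ≤ dn β Φ := by
  unfold dn; positivity

theorem count_gen_real {β : Type} [Fintype β] (k T n : ℕ) (hn : 0 < n) (Φ : (β → Fin n) → Prop) :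
    (((univ : Finset (Fin k → Fin T → Fin n)).filter (HasP Φ)).card : ℝ) ≤
      ((k * T : ℕ) : ℝ) ^ (Fintype.card β) * dn β Φ * (n : ℝ) ^ (k * T) := by
  have hn' : (0 : ℝ) < n := by exact_mod_cast hn
  rcases Nat.lt_or_ge (k * T) (Fintype.card β) with h | h
  · have h0 : ((univ : Finset (Fin k → Fin T → Fin n)).filter (HasP Φ)) = ∅ := by
      ext y
      simp only [mem_filter, mem_univ, true_and, notMem_empty, iff_false]
      rintro ⟨e, he, -⟩
      have := Fintype.card_le_of_injective e he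
      rw [Fintype.card_prod, Fintype.card_fin, Fintype.card_fin] at this
      omega
    rw [h0, card_empty, Nat.cast_zero]
    have := dn_nonneg β Φ
    positivity
  · have h1 := (Nat.cast_le (α := ℝ)).2 (count_gen k T n Φ)
    rw [Nat.cast_mul, Nat.cast_mul, Nat.cast_pow, Nat.cast_pow] at h1
    refine h1.trans (le_of_eq ?_)
    have h2 : (n : ℝ) ^ (k * T) = (n : ℝ) ^ (k * T - Fintype.card β) *
        (n : ℝ) ^ (Fintype.card β) := by
      rw [← pow_add]; congr 1; omega
    unfold dn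
    rw [h2]
    field_simp

/-- one of the two configurations -/
def BB (s k T n : ℕ) (G : Finset (Finset (Fin n))) (y : Fin k → Fin T → Fin n) : Prop :=
  HasP (Bad3 s G) y ∨ HasP (Bad4 s G) y

/-- the configuration `Bad3` -/
def B3 (s k T n : ℕ) (G : Finset (Finset (Fin n))) (y : Fin k → Fin T → Fin n) : Prop :=
  HasP (Bad3 s G) y

/-- the configuration `Bad4` -/
def B4 (s k T n : ℕ) (G : Finset (Finset (Fin n))) (y : Fin k → Fin T → Fin n) : Prop :=
  HasP (Bad4 s G) y

section
variable {k n s : ℕ} {G : Finset (Finset (Fin n))} {P : Fin k → Fin k → Fin k → Prop}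
  {y : Fin k → Fin (s + 2) → Fin n}

theorem real_iff (hR : Real G P y) {a b c : Fin k} {p q r : Fin s}
    (h1 : (a, p) ≠ (b, q)) (h2 : (b, q) ≠ (c, r)) (h3 : (a, p) ≠ (c, r)) :
    (({y a (ix p), y b (ix q), y c (ix r)} : Finset (Fin n)) ∈ G ↔ P a b c) := by
  refine hR a b c _ _ _ ?_ ?_ ?_
  · intro h
    simp only [Prod.mk.injEq] at h
    exact h1 (Prod.ext h.1 (ix_inj h.2))
  · intro h
    simp only [Prod.mk.injEq] at h
    exact h2 (Prod.ext h.1 (ix_inj h.2))
  · intro h
    simp only [Prod.mk.injEq] at h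
    exact h3 (Prod.ext h.1 (ix_inj h.2))

theorem arrow_real (hR : Real G P y) (hP : IsPat P) {a b : Fin k} (hab : a ≠ b) (h1 : P a a b)
    (h2 : ¬ P b b a) : Arrow G (fun p => y a (ix (s := s) p)) (fun p => y b (ix p)) := by
  refine ⟨fun p q r hpq => ?_, fun p q r hqr => ?_⟩
  · refine (real_iff hR ?_ ?_ ?_).mpr h1
    · exact fun h => hpq (congrArg Prod.snd h)
    · exact fun h => hab (congrArg Prod.fst h)
    · exact fun h => hab (congrArg Prod.fst h)
  · intro h
    refine h2 (hP.s23 (hP.s12 ((real_iff hR ?_ ?_ ?_).mp h)))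
    · exact fun h => hab (congrArg Prod.fst h)
    · exact fun h => hqr (congrArg Prod.snd h)
    · exact fun h => hab (congrArg Prod.fst h)

theorem apart_real (hR : Real G P y) (hP : IsPat P) {a b : Fin k} (hab : a ≠ b) (h1 : ¬ P a a b)
    (h2 : ¬ P b b a) : Apart G (fun p => y a (ix (s := s) p)) (fun p => y b (ix p)) := by
  refine ⟨fun p q r hpq => ?_, fun p q r hqr => ?_⟩
  · intro h
    refine h1 ((real_iff hR ?_ ?_ ?_).mp h)
    · exact fun h => hpq (congrArg Prod.snd h)
    · exact fun h => hab (congrArg Prod.fst h)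
    · exact fun h => hab (congrArg Prod.fst h)
  · intro h
    refine h2 (hP.s23 (hP.s12 ((real_iff hR ?_ ?_ ?_).mp h)))
    · exact fun h => hab (congrArg Prod.fst h)
    · exact fun h => hqr (congrArg Prod.snd h)
    · exact fun h => hab (congrArg Prod.fst h)

theorem bad3_real (hR : Real G P y) (hI : Inj y) (hP : IsPat P) {i j x : Fin k} (hij : i ≠ j)
    (hix : i ≠ x) (hjx : j ≠ x) (f1 : Far P i j) (f2 : Far P i x) (h : P i j x) :
    HasP (Bad3 s G) y := by
  refine ⟨fun o => (![i, j, x] o.1, ix o.2), ?_, ?_, ?_, ?_, ?_⟩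
  · rintro ⟨a, p⟩ ⟨b, q⟩ h
    simp only [Prod.mk.injEq] at h
    obtain ⟨h1, h2⟩ := h
    have h3 := ix_inj h2
    subst h3
    have h4 : a = b := by
      fin_cases a <;> fin_cases b <;> simp_all
    rw [h4]
  · rintro ⟨a, p⟩ ⟨b, q⟩ h
    have h1 := hI _ _ _ _ h
    have h3 := ix_inj h1.2
    subst h3
    have h4 : a = b := by
      have h5 := h1.1
      clear h h1
      fin_cases a <;> fin_cases b <;> simp_all
    rw [h4]
  · exact apart_real hR hP hij f1.1 f1.2
  · exact apart_real hR hP hix f2.1 f2.2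
  · intro p q r
    refine (real_iff hR ?_ ?_ ?_).mpr h
    · exact fun h => hij (congrArg Prod.fst h)
    · exact fun h => hjx (congrArg Prod.fst h)
    · exact fun h => hix (congrArg Prod.fst h)

theorem bad4_real (hR : Real G P y) (hI : Inj y) (hP : IsPat P) (hO : ∀ i j, P i i j → ¬ P j j i)
    {a b c d : Fin k} (hab : a ≠ b) (hbc : b ≠ c) (hcd : c ≠ d) (hda : d ≠ a) (hac : a ≠ c)
    (hbd : b ≠ d) (u1 : P a a b) (u2 : P b b c) (u3 : P c c d) (u4 : P d d a) (f1 : Far P a c)
    (f2 : Far P b d) (h : ¬ P a b c) : HasP (Bad4 s G) y := by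
  refine ⟨fun o => (![a, b, c, d] o.1, ix o.2), ?_, ?_, ?_, ?_, ?_, ?_, ?_, ?_, ?_⟩
  · rintro ⟨a', p⟩ ⟨b', q⟩ h
    simp only [Prod.mk.injEq] at h
    obtain ⟨h1, h2⟩ := h
    have h3 := ix_inj h2
    subst h3
    have h4 : a' = b' := by
      clear u1 u2 u3 u4 f1 f2
      fin_cases a' <;> fin_cases b' <;> simp_all
    rw [h4]
  · rintro ⟨a', p⟩ ⟨b', q⟩ h
    have h1 := hI _ _ _ _ h
    have h3 := ix_inj h1.2
    subst h3
    have h4 : a' = b' := by
      have h5 := h1.1
      clear h h1 u1 u2 u3 u4 f1 f2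
      fin_cases a' <;> fin_cases b' <;> simp_all
    rw [h4]
  · exact arrow_real hR hP hab u1 (hO _ _ u1)
  · exact arrow_real hR hP hbc u2 (hO _ _ u2)
  · exact arrow_real hR hP hcd u3 (hO _ _ u3)
  · exact arrow_real hR hP hda u4 (hO _ _ u4)
  · exact apart_real hR hP hac f1.1 f1.2
  · exact apart_real hR hP hbd f2.1 f2.2
  · intro p q r h'
    refine h ((real_iff hR ?_ ?_ ?_).mp h')
    · exact fun h => hab (congrArg Prod.fst h)
    · exact fun h => hbc (congrArg Prod.fst h)
    · exact fun h => hac (congrArg Prod.fst h)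

end

/-- arcs of a realised pattern are oriented -/
theorem oriented {k n t : ℕ} {G : Finset (Finset (Fin n))} (hK : KFree 4 G)
    {P : Fin k → Fin k → Fin k → Prop} (hP : IsPat P) {y : Fin k → Fin (t + 2) → Fin n}
    (hR : Real G P y) (hI : Inj y) (i j : Fin k) (h1 : P i i j) : ¬ P j j i := by
  intro h2
  have hij : i ≠ j := by
    rintro rfl
    exact hP.irr _ h1
  have := cap_of_real (by omega) hK hP hR hI {i, j} {i, j} (Subset.refl _) (by
    intro a ha b hb c hc n1 n2 n3
    exfalso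
    simp only [mem_insert, mem_singleton] at ha hb hc
    rcases ha with rfl | rfl <;> rcases hb with rfl | rfl <;> rcases hc with rfl | rfl <;>
      first
      | exact n1 rfl
      | exact n2 rfl
      | exact n3 rfl) (by
    intro u hu v hv n1
    simp only [mem_insert, mem_singleton] at hu hv
    rcases hu with rfl | rfl <;> rcases hv with rfl | rfl
    · exact absurd rfl n1
    · exact h1
    · exact h2
    · exact absurd rfl n1)
  rw [card_pair hij] at this
  omega

/-- **Local theorem** for `m = 4` and the two configurations. -/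
theorem locB (k s : ℕ) (hk : 0 < k) : ∃ T : ℕ, 0 < T ∧
    ∀ (n : ℕ) (G : Finset (Finset (Fin n))), KFree 4 G →
    ∀ (X : Finset (Finset (Fin k))) (y : Fin k → Fin T → Fin n),
    (∀ f : Fin k → Fin T, (fun i => y i (f i)) ∈ SX G X) → (∀ i, Function.Injective (y i)) →
    rho 3 * (k : ℝ) ^ 3 < ((QT X).card : ℝ) → BB s k T n G y := by
  obtain ⟨T', hT, h⟩ := loc 4 k s
  refine ⟨T', by omega, fun n G hK X y hsel hinj hX => ?_⟩
  obtain ⟨P, z, hP, hz, hI, hR, hPX⟩ := h n G hK X y hsel hinj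
  have : Nonempty (Fin k) := ⟨⟨0, hk⟩⟩
  by_contra hno
  unfold BB at hno
  push Not at hno
  have h3 : ¬ HasP (Bad3 s G) (fun i a => y i (z i a)) := fun h => hno.1 (h.comp hz)
  have h4 : ¬ HasP (Bad4 s G) (fun i a => y i (z i a)) := fun h => hno.2 (h.comp hz)
  have hb := pat4 hK hP hR hI
    (fun i j x hij hix hjx f1 f2 hp => h3 (bad3_real hR hI hP hij hix hjx f1 f2 hp))
    (fun a b c d hab hbc hcd hda hac hbd u1 u2 u3 u4 f1 f2 => by
      by_contra hp
      exact h4 (bad4_real hR hI hP (oriented hK hP hR hI) hab hbc hcd hda hac hbd u1 u2 u3 u4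
        f1 f2 hp))
    (fun _ => 1 / (k : ℝ)) (smp_uniform hk)
  exact absurd hX (not_lt.mpr (rho_le (by norm_num) (T_uniform hPX) hb))

/-- **`K_4^3`-free 3-graphs with few of the two configurations** -/
theorem thmB (s : ℕ) {ε : ℝ} (hε : 0 < ε) : ∃ δ : ℝ, 0 < δ ∧ ∃ N : ℕ,
    ∀ n : ℕ, N ≤ n → ∀ G : Finset (Finset (Fin n)), (∀ e ∈ G, e.card = 3) → KFree 4 G →
      dn (Fin 3 × Fin s) (Bad3 s G) + dn (Fin 4 × Fin s) (Bad4 s G) ≤ δ →
      (G.card : ℝ) ≤ (rho 3 + ε) * (n.choose 3 : ℝ) :=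
  main_abs 4 (rho 3) (BB s)
    (fun n G => dn (Fin 3 × Fin s) (Bad3 s G) + dn (Fin 4 × Fin s) (Bad4 s G))
    (rho_nonneg (by norm_num))
    (hq_or (B1 := B3 s) (B2 := B4 s) (fun _ _ _ _ _ h => h)
      (q1 := fun n G => dn (Fin 3 × Fin s) (Bad3 s G))
      (q2 := fun n G => dn (Fin 4 × Fin s) (Bad4 s G))
      (fun _ _ => dn_nonneg _ _) (fun _ _ => dn_nonneg _ _)
      (fun k T => ⟨((k * T : ℕ) : ℝ) ^ (Fintype.card (Fin 3 × Fin s)), by positivity,
        fun n hn G => count_gen_real k T n hn (Bad3 s G)⟩)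
      (fun k T => ⟨((k * T : ℕ) : ℝ) ^ (Fintype.card (Fin 4 × Fin s)), by positivity,
        fun n hn G => count_gen_real k T n hn (Bad4 s G)⟩))
    (fun k hk => locB k s hk) hε

end Pool.Agent.N442.K4
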