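import Pool.Agent.N442.LP.Fin
import Pool.Agent.H122R2.FdF.Main

/-!
# Patterns of `K_4^3`-free 3-graphs without `K_{s,s} ∪ s K_1` in the links

The pattern is contained in the Fon-der-Flaass 3-graph of the oriented graph of its arcs
`i → j` (`P i i j`), which has no induced oriented 4-cycle.
-/

set_option autoImplicit false

open Finset
open scoped Classical

namespace Pool.Agent.N442.K4

open Pool.Agent.N442.LP

/-- `K_{s,s} ∪ s K_1` in the link of `i`, from the parts `i`, `j` and `x` -/
theorem posC' {k n s : ℕ} {G : Finset (Finset (Fin n))} {P : Fin k → Fin k → Fin k → Prop}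
    {y : Fin k → Fin (s + 2) → Fin n} (hP : IsPat P) (hR : Real G P y) (hI : Inj y) {i j x : Fin k}
    (hij : i ≠ j) (hix : i ≠ x) (hjx : j ≠ x) (h1 : P i i j) (h2 : ¬ P j j i) (h3 : ¬ P i i x)
    (h4 : ¬ P x x i) (h5 : ¬ P i j x) : HasPos (gC s) G y := by
  refine copy_mk (gC s) hR hI i 0 (fun o => match o with
    | .inl (.inl q) => (i, ix q)
    | .inl (.inr q) => (j, ix q)
    | .inr q => (x, ix q)) ?_ ?_ ?_
  · rintro ((p | p) | p) ((q | q) | q) h
    · simp only [Prod.mk.injEq, true_and] at h
      rw [ix_inj h]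
    · exact absurd (congrArg Prod.fst h) hij
    · exact absurd (congrArg Prod.fst h) hix
    · exact absurd (congrArg Prod.fst h) hij.symm
    · simp only [Prod.mk.injEq, true_and] at h
      rw [ix_inj h]
    · exact absurd (congrArg Prod.fst h) hjx
    · exact absurd (congrArg Prod.fst h) hix.symm
    · exact absurd (congrArg Prod.fst h) hjx.symm
    · simp only [Prod.mk.injEq, true_and] at h
      rw [ix_inj h]
  · rintro ((p | p) | p) h
    · exact ix_ne p (congrArg Prod.snd h)
    · exact hij (congrArg Prod.fst h).symm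
    · exact hix (congrArg Prod.fst h).symm
  · have k1 : ¬ P i i i := hP.irr i
    have k2 : P i j i := hP.s23 h1
    have k3 : ¬ P i j j := fun h => h2 (hP.s23 (hP.s12 h))
    have k4 : ¬ P i x i := fun h => h3 (hP.s23 h)
    have k5 : ¬ P i x x := fun h => h4 (hP.s23 (hP.s12 h))
    have k6 : ¬ P i x j := fun h => h5 (hP.s23 h)
    rintro ((p | p) | p) ((q | q) | q) h
    · simp [gC, k1]
    · simp [gC, h1]
    · simp [gC, h3]
    · simp [gC, k2]
    · simp [gC, k3]
    · simp [gC, h5]
    · simp [gC, k4]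
    · simp [gC, k6]
    · simp [gC, k5]

open Pool.Agent.H122R2.FdF (Oriented) in
theorem tri {V : Type} {R : V → V → Prop} (hO : Oriented R) (a b : V) :
    (R a b ∧ ¬ R b a) ∨ (¬ R a b ∧ R b a) ∨ (¬ R a b ∧ ¬ R b a) := by
  have o1 := hO a b
  tauto

open Pool.Agent.H122R2.FdF (Oriented H N A) in
theorem H_zero {V : Type} (R : V → V → Prop) (hO : Oriented R) (a b c : V)
    (f1 : R a b → ¬ R a c) (f2 : R b a → ¬ R b c) (f3 : R c a → ¬ R c b)
    (g1 : ¬ R a b → ¬ R b a → ¬ R a c → R c a) (g2 : ¬ R a b → ¬ R b a → ¬ R b c → R c b)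
    (g3 : ¬ R a c → ¬ R c a → ¬ R b c → R c b) : H R a b c = 0 := by
  unfold H N A
  rcases tri hO a b with ⟨h1, h2⟩ | ⟨h1, h2⟩ | ⟨h1, h2⟩ <;>
    rcases tri hO a c with ⟨h3, h4⟩ | ⟨h3, h4⟩ | ⟨h3, h4⟩ <;>
    rcases tri hO b c with ⟨h5, h6⟩ | ⟨h5, h6⟩ | ⟨h5, h6⟩ <;>
    first
    | (exfalso; exact f1 h1 h3)
    | (exfalso; exact f2 h2 h5)
    | (exfalso; exact f3 h4 h6)
    | (exfalso; exact h4 (g1 h1 h2 h3))
    | (exfalso; exact h6 (g2 h1 h2 h5))
    | (exfalso; exact h6 (g3 h3 h4 h5))
    | (simp only [h1, h2, h3, h4, h5, h6, or_true, or_false, if_true, if_false]; norm_num)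

open Pool.Agent.H122R2.FdF (Oriented H N A) in
theorem H_le_one {V : Type} (R : V → V → Prop) (hO : Oriented R) (a b c : V) : H R a b c ≤ 1 := by
  unfold H N A
  rcases tri hO a b with ⟨h1, h2⟩ | ⟨h1, h2⟩ | ⟨h1, h2⟩ <;>
    rcases tri hO a c with ⟨h3, h4⟩ | ⟨h3, h4⟩ | ⟨h3, h4⟩ <;>
    rcases tri hO b c with ⟨h5, h6⟩ | ⟨h5, h6⟩ | ⟨h5, h6⟩ <;>
    simp only [h1, h2, h3, h4, h5, h6, or_true, or_false, if_true, if_false] <;> norm_num

/-- the density of a pattern which is contained in a Fon-der-Flaass 3-graph -/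
theorem fdf_bound {V : Type} [Fintype V] {P : V → V → V → Prop} (hP : IsPat P)
    (hO : ∀ i j, P i i j → ¬ P j j i)
    (h2 : ∀ a b c, b ≠ c → P a a b → P a a c → ¬ P a b c)
    (h0 : ∀ a b c, ¬ P a a b → ¬ P b b a → ¬ P a a c → ¬ P c c a → ¬ P a b c)
    (h4 : ∀ a b c d, P a a b → P b b c → P c c d → P d d a →
      P a a c ∨ P c c a ∨ P b b d ∨ P d d b)
    (w : V → ℝ) (hw : Smp w) : 4 ≤ ((3 : ℕ) : ℝ) ^ 2 * (1 - T (ind P) w w w) := by
  have h := Pool.Agent.H122R2.FdF.main_weighted (fun i j => P i i j) w hO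
    (fun a b c d => h4 a b c d) hw.1 hw.2
  have e : Pool.Agent.H122R2.FdF.T (fun i j => P i i j) w ≤ 1 - T (ind P) w w w := by
    have e1 : (1 : ℝ) = ∑ a, ∑ b, ∑ c, w a * w b * w c := by
      have : ∑ a, ∑ b, ∑ c, w a * w b * w c = (∑ a, w a) * (∑ b, w b) * ∑ c, w c := by
        rw [sum_mul_sum, sum_mul]
        refine sum_congr rfl fun a _ => ?_
        rw [sum_mul]
        refine sum_congr rfl fun b _ => ?_
        rw [mul_sum]
      rw [this, hw.2]; norm_num
    rw [e1]
    unfold Pool.Agent.H122R2.FdF.T T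
    rw [← sum_sub_distrib]
    refine sum_le_sum fun a _ => ?_
    rw [← sum_sub_distrib]
    refine sum_le_sum fun b _ => ?_
    rw [← sum_sub_distrib]
    refine sum_le_sum fun c _ => ?_
    have hwn : 0 ≤ w a * w b * w c := mul_nonneg (mul_nonneg (hw.1 a) (hw.1 b)) (hw.1 c)
    have key : Pool.Agent.H122R2.FdF.H (fun i j => P i i j) a b c ≤ 1 - ind P a b c := by
      by_cases hp : P a b c
      · have hba : P b a c := hP.s12 hp
        have hca : P c a b := hP.s12 (hP.s23 hp)
        have k : Pool.Agent.H122R2.FdF.H (fun i j => P i i j) a b c = 0 := by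
          refine H_zero _ hO a b c ?_ ?_ ?_ ?_ ?_ ?_
          · intro u v
            by_cases hbc : b = c
            · subst hbc
              exact hO _ _ u (hP.s23 hba)
            · exact h2 a b c hbc u v hp
          · intro u v
            by_cases hac : a = c
            · subst hac
              exact hO _ _ u (hP.s23 hp)
            · exact h2 b a c hac u v hba
          · intro u v
            by_cases hab : a = b
            · subst hab
              exact hO _ _ u hp
            · exact h2 c a b hab u v hca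
          · intro u1 u2 u3
            by_contra u4
            exact h0 a b c u1 u2 u3 u4 hp
          · intro u1 u2 u3
            by_contra u4
            exact h0 b a c u2 u1 u3 u4 hba
          · intro u1 u2 u3
            by_contra u4
            exact h0 c a b u2 u1 u4 u3 hca
        have hi : ind P a b c = 1 := by unfold ind; rw [if_pos hp]
        rw [k, hi]; norm_num
      · have hi : ind P a b c = 0 := by unfold ind; rw [if_neg hp]
        rw [hi]
        have := H_le_one (fun i j => P i i j) hO a b c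
        linarith
    have e2 : ∀ x y : ℝ, x ≤ 1 - y → w a * w b * w c * x ≤ w a * w b * w c - w a * w b * w c * y := by
      intro x y hxy
      have := mul_le_mul_of_nonneg_left hxy hwn
      linarith
    have e3 := e2 _ _ key
    linarith
  have : ((3 : ℕ) : ℝ) ^ 2 = 9 := by norm_num
  rw [this]
  linarith

/-- **Patterns of `K_4^3`-free 3-graphs**: without an isolated class in a triple of the pattern, and
without an oriented 4-cycle with a missing triple, the density is at most `5/9`. -/
theorem pat4 {k n t : ℕ} {G : Finset (Finset (Fin n))} (hK : KFree 4 G)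
    {P : Fin k → Fin k → Fin k → Prop} (hP : IsPat P) {y : Fin k → Fin (t + 2) → Fin n}
    (hR : Real G P y) (hI : Inj y)
    (hT : ∀ i j x, i ≠ j → i ≠ x → j ≠ x → Far P i j → Far P i x → ¬ P i j x)
    (hC : ∀ a b c d, a ≠ b → b ≠ c → c ≠ d → d ≠ a → a ≠ c → b ≠ d → P a a b → P b b c → P c c d →
      P d d a → Far P a c → Far P b d → P a b c)
    (w : Fin k → ℝ) (hw : Smp w) : 4 ≤ ((3 : ℕ) : ℝ) ^ 2 * (1 - T (ind P) w w w) := by
  have hcap := fun A S hAS h1 h2 => cap_of_real (by omega) hK hP hR hI A S hAS h1 h2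
  have hO : ∀ i j, P i i j → ¬ P j j i := by
    intro i j h1 h2
    have hij : i ≠ j := by
      rintro rfl
      exact hP.irr _ h1
    have := hcap {i, j} {i, j} (Subset.refl _) (by
      intro a ha b hb c hc n1 n2 n3
      exfalso
      simp only [mem_insert, mem_singleton] at ha hb hc
      rcases ha with rfl | rfl <;> rcases hb with rfl | rfl <;> rcases hc with rfl | rfl <;>
        first
        | exact n1 rfl
        | exact n2 rfl
        | exact n3 rfl) (by
      intro u hu v hv n1
      simp only [mem_insert, mem_singleton] at hu hv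
      rcases hu with rfl | rfl <;> rcases hv with rfl | rfl
      · exact absurd rfl n1
      · exact h1
      · exact h2
      · exact absurd rfl n1)
    rw [card_pair hij] at this
    omega
  have h2 : ∀ a b c, b ≠ c → P a a b → P a a c → ¬ P a b c := by
    intro a b c hbc h1 h2 h3
    have hab : a ≠ b := by
      rintro rfl
      exact hP.irr _ h1
    have hac : a ≠ c := by
      rintro rfl
      exact hP.irr _ h2
    have := hcap {a} {a, b, c} (by simp) (by
      have q1 := hP.s12 h3
      have q2 := hP.s23 h3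
      have q3 := hP.s12 q2
      have q4 := hP.s23 q1
      have q5 := hP.s23 q3
      intro a' ha b' hb c' hc n1 n2 n3
      simp only [mem_insert, mem_singleton] at ha hb hc
      rcases ha with rfl | rfl | rfl <;> rcases hb with rfl | rfl | rfl <;>
        rcases hc with rfl | rfl | rfl <;>
        first
        | exact absurd rfl n1
        | exact absurd rfl n2
        | exact absurd rfl n3
        | assumption) (by
      intro u hu v hv n1
      simp only [mem_insert, mem_singleton] at hu hv
      subst hu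
      rcases hv with rfl | rfl | rfl
      · exact absurd rfl n1
      · exact h1
      · exact h2)
    rw [card_singleton, card_eq_three.mpr ⟨a, b, c, hab, hac, hbc, rfl⟩] at this
    omega
  have h0 : ∀ a b c, ¬ P a a b → ¬ P b b a → ¬ P a a c → ¬ P c c a → ¬ P a b c := by
    intro a b c u1 u2 u3 u4 u5
    have hab : a ≠ b := by
      rintro rfl
      exact u3 u5
    have hac : a ≠ c := by
      rintro rfl
      exact u1 (hP.s23 u5)
    have hbc : b ≠ c := by
      rintro rfl
      exact u2 (hP.s23 (hP.s12 u5))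
    exact hT a b c hab hac hbc ⟨u1, u2⟩ ⟨u3, u4⟩ u5
  refine fdf_bound hP hO h2 h0 ?_ w hw
  intro a b c d u1 u2 u3 u4
  by_contra hcon
  push Not at hcon
  obtain ⟨v1, v2, v3, v4⟩ := hcon
  have hab : a ≠ b := by
    rintro rfl
    exact hP.irr _ u1
  have hbc : b ≠ c := by
    rintro rfl
    exact hP.irr _ u2
  have hcd : c ≠ d := by
    rintro rfl
    exact hP.irr _ u3
  have hda : d ≠ a := by
    rintro rfl
    exact hP.irr _ u4
  have hac : a ≠ c := by
    rintro rfl
    exact hO _ _ u1 u2
  have hbd : b ≠ d := by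
    rintro rfl
    exact hO _ _ u2 u3
  have p1 : P a b c := hC a b c d hab hbc hcd hda hac hbd u1 u2 u3 u4 ⟨v1, v2⟩ ⟨v3, v4⟩
  have p2 : P b c d := hC b c d a hbc hcd hda hab hbd hac.symm u2 u3 u4 u1 ⟨v3, v4⟩ ⟨v2, v1⟩
  have p3 : P c d a := hC c d a b hcd hda hab hbc hac.symm hbd.symm u3 u4 u1 u2 ⟨v2, v1⟩ ⟨v4, v3⟩
  have p4 : P d a b := hC d a b c hda hab hbc hcd hbd.symm hac u4 u1 u2 u3 ⟨v4, v3⟩ ⟨v1, v2⟩
  have := hcap ∅ {a, b, c, d} (by simp) (by
    have a1 := hP.s12 p1
    have a2 := hP.s23 p1
    have a3 := hP.s12 a2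
    have a4 := hP.s23 a1
    have a5 := hP.s23 a3
    have b1 := hP.s12 p2
    have b2 := hP.s23 p2
    have b3 := hP.s12 b2
    have b4 := hP.s23 b1
    have b5 := hP.s23 b3
    have c1 := hP.s12 p3
    have c2 := hP.s23 p3
    have c3 := hP.s12 c2
    have c4 := hP.s23 c1
    have c5 := hP.s23 c3
    have d1 := hP.s12 p4
    have d2 := hP.s23 p4
    have d3 := hP.s12 d2
    have d4 := hP.s23 d1
    have d5 := hP.s23 d3
    intro a' ha b' hb c' hc n1 n2 n3
    simp only [mem_insert, mem_singleton] at ha hb hc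
    rcases ha with rfl | rfl | rfl | rfl <;> rcases hb with rfl | rfl | rfl | rfl <;>
      rcases hc with rfl | rfl | rfl | rfl <;>
      first
      | exact absurd rfl n1
      | exact absurd rfl n2
      | exact absurd rfl n3
      | assumption) (by
    intro u hu
    exact absurd hu (notMem_empty _))
  have hc4 : ({a, b, c, d} : Finset (Fin k)).card = 4 := by
    rw [card_insert_of_notMem, card_insert_of_notMem, card_pair hcd]
    · simp [hbc, hbd]
    · simp [hab, hac, hda.symm]
  rw [card_empty, hc4] at this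
  omega

/-- **Local theorem** for `m = 4` and `K_{s,s} ∪ s K_1`. -/
theorem loc4 (k s : ℕ) (hk : 0 < k) : ∃ T : ℕ, 0 < T ∧
    ∀ (n : ℕ) (G : Finset (Finset (Fin n))), KFree 4 G →
    ∀ (X : Finset (Finset (Fin k))) (y : Fin k → Fin T → Fin n),
    (∀ f : Fin k → Fin T, (fun i => y i (f i)) ∈ SX G X) → (∀ i, Function.Injective (y i)) →
    rho 3 * (k : ℝ) ^ 3 < ((QT X).card : ℝ) → HasPos (gC s) G y := by
  obtain ⟨T', hT, h⟩ := loc 4 k s
  refine ⟨T', by omega, fun n G hK X y hsel hinj hX => ?_⟩
  obtain ⟨P, z, hP, hz, hI, hR, hPX⟩ := h n G hK X y hsel hinj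
  have : Nonempty (Fin k) := ⟨⟨0, hk⟩⟩
  by_contra hno
  have hno' : ¬ HasPos (gC s) G (fun i a => y i (z i a)) := fun h => hno (h.comp hz)
  have hb := pat4 hK hP hR hI
    (fun i j x hij hix hjx f1 f2 hp => hno' (posC hP hR hI hij hix hjx f1.1 f1.2 hp f2.1 f2.2))
    (fun a b c d hab hbc hcd hda hac hbd u1 u2 u3 u4 f1 f2 => by
      by_contra hp
      have u5 : ¬ P b b a := by
        intro u5
        -- `b → a`, `a → b` : four vertices
        have := cap_of_real (by omega) hK hP hR hI {a, b} {a, b} (Subset.refl _) (by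
          intro a' ha b' hb c' hc n1 n2 n3
          exfalso
          simp only [mem_insert, mem_singleton] at ha hb hc
          rcases ha with rfl | rfl <;> rcases hb with rfl | rfl <;> rcases hc with rfl | rfl <;>
            first
            | exact n1 rfl
            | exact n2 rfl
            | exact n3 rfl) (by
          intro u hu v hv n1
          simp only [mem_insert, mem_singleton] at hu hv
          rcases hu with rfl | rfl <;> rcases hv with rfl | rfl
          · exact absurd rfl n1
          · exact u1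
          · exact u5
          · exact absurd rfl n1)
        rw [card_pair hab] at this
        omega
      exact hno' (posC' hP hR hI hab hac hbc u1 u5 f1.1 f1.2 hp))
    (fun _ => 1 / (k : ℝ)) (smp_uniform hk)
  exact absurd hX (not_lt.mpr (rho_le (by norm_num) (T_uniform hPX) hb))

/-- **`K_4^3`-free 3-graphs with few copies of `K_{s,s} ∪ s K_1`** -/
theorem thm4 (s : ℕ) {ε : ℝ} (hε : 0 < ε) : ∃ δ : ℝ, 0 < δ ∧ ∃ N : ℕ,
    ∀ n : ℕ, N ≤ n → ∀ G : Finset (Finset (Fin n)), (∀ e ∈ G, e.card = 3) → KFree 4 G →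
      qd (gC s) n G ≤ δ → (G.card : ℝ) ≤ (rho 3 + ε) * (n.choose 3 : ℝ) :=
  main_abs 4 (rho 3) (B0 (gC s)) (fun n G => qd (gC s) n G) (rho_nonneg (by norm_num)) (hq1 _)
    (fun k hk => loc4 k s hk) hε

end Pool.Agent.N442.K4
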